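import Pool.Agent.Helper5.LCU.Stmts

/-! # Row CNV of `Pool.Agent.Helper5.LCU.Stmts` -/

set_option autoImplicit false

open Finset

namespace Pool.Agent.Helper5.LCU

theorem cnv_sum1 (a b : ℕ → ℝ) (x N : ℕ) (h : x < N) :
    ∑ s ∈ range N, (if s ≤ x then a (x - s) else 0) * b s =
      ∑ i ∈ range (x + 1), a i * b (x - i) := by
  rw [← Finset.sum_subset (Finset.range_subset_range.2 (by omega : x + 1 ≤ N))
    (fun s _ hs => by
      have : ¬ s ≤ x := by
        intro h'; exact hs (Finset.mem_range.2 (by omega))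
      rw [if_neg this, zero_mul])]
  rw [← Finset.sum_range_reflect]
  refine Finset.sum_congr rfl fun i hi => ?_
  have hi' := Finset.mem_range.1 hi
  have e1 : x + 1 - 1 - i = x - i := by omega
  rw [e1, if_pos (by omega)]
  congr 2
  omega

theorem cnv_sum2 (a b : ℕ → ℝ) (x N : ℕ) (h : x + 1 < N) :
    ∑ s ∈ range N, (if s ≤ x + 1 then a (x + 1 - s) else 0) * (if s = 0 then 0 else b (s - 1)) =
      ∑ i ∈ range (x + 1), a i * b (x - i) := by
  obtain ⟨M, rfl⟩ : ∃ M, N = M + 1 := ⟨N - 1, by omega⟩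
  rw [Finset.sum_range_succ', if_pos rfl, mul_zero, add_zero, ← cnv_sum1 a b x M (by omega)]
  refine Finset.sum_congr rfl fun s _ => ?_
  have h2 : x + 1 - (s + 1) = x - s := by omega
  rw [h2, if_neg (Nat.succ_ne_zero s), Nat.add_sub_cancel]
  by_cases h1 : s ≤ x
  · rw [if_pos h1, if_pos (Nat.succ_le_succ h1)]
  · rw [if_neg h1, if_neg (by omega)]

theorem st_CNV (hCB : ST_CB) (hMAJ : ST_MAJ) : ST_CNV := by
  intro a b ha hb
  refine ⟨fun m => Finset.sum_nonneg fun i _ => mul_nonneg (ha.1 _) (hb.1 _), fun i j hij => ?_⟩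
  have key := hCB (j + 3) (fun s => if s ≤ i + 1 then a (i + 1 - s) else 0)
    (fun s => if s ≤ j + 1 + 1 then a (j + 1 + 1 - s) else 0) b
    (fun s => if s = 0 then 0 else b (s - 1)) ?_ ?_
  · rw [cnv_sum2 a b i (j + 3) (by omega), cnv_sum1 a b (j + 1 + 1) (j + 3) (by omega),
      cnv_sum1 a b (i + 1) (j + 3) (by omega), cnv_sum2 a b (j + 1) (j + 3) (by omega)] at key
    exact key
  · intro s t hst htN
    by_cases ht : t ≤ i + 1
    · have hs : s ≤ i + 1 := by omega
      have ht2 : t ≤ j + 1 + 1 := by omega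
      have hs2 : s ≤ j + 1 + 1 := by omega
      simp only [if_pos ht, if_pos hs, if_pos ht2, if_pos hs2]
      have := hMAJ a ha (i + 1 - t) (j + 1 + 1 - s) (i + 1 - s) (j + 1 + 1 - t) (by omega)
        (by omega) (by omega)
      linarith
    · simp only [if_neg ht, zero_mul, sub_zero]
      refine mul_nonneg ?_ ?_
      · split_ifs
        · exact ha.1 _
        · exact le_rfl
      · split_ifs
        · exact ha.1 _
        · exact le_rfl
  · intro s t hst htN
    have ht0 : t ≠ 0 := by omega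
    simp only [if_neg ht0]
    by_cases hs : s = 0
    · simp only [if_pos hs, mul_zero, sub_zero]
      exact mul_nonneg (hb.1 _) (hb.1 _)
    · simp only [if_neg hs]
      have := hMAJ b hb (s - 1) t s (t - 1) (by omega) (by omega) (by omega)
      linarith

end Pool.Agent.Helper5.LCU
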